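import Mathlib

/-!
# Products of finite sets: few choices meet many small sets, and exchange of coordinates
-/

set_option autoImplicit false

namespace Pool.Agent.Q75.WT

open Finset

section

variable {ι : Type} [Fintype ι] [DecidableEq ι] {A : ι → Type} [∀ i, Fintype (A i)]

open scoped Classical in
/-- number of coordinates of `c` in the sets `X i` -/
noncomputable def hits (X : ∀ i, Finset (A i)) (c : ∀ i, A i) : ℕ :=
  (univ.filter (fun i => c i ∈ X i)).card

open scoped Classical in
theorem exp_moment (X : ∀ i, Finset (A i)) (s : ℝ) :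
    ∑ c : (∀ i, A i), s ^ hits X c =
      ∏ i, ((Fintype.card (A i) : ℝ) + (s - 1) * (X i).card) := by
  have h1 : ∀ c : (∀ i, A i), s ^ hits X c = ∏ i, (if c i ∈ X i then s else 1) := by
    intro c
    rw [prod_ite, prod_const, prod_const_one, mul_one]
    rfl
  rw [sum_congr rfl fun c _ => h1 c]
  have h2 : ∏ i, ∑ a : A i, (if a ∈ X i then s else 1) =
      ∑ c : (∀ i, A i), ∏ i, (if c i ∈ X i then s else 1) := by
    rw [prod_univ_sum]
    rw [Fintype.piFinset_univ]
  rw [← h2]
  refine prod_congr rfl fun i _ => ?_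
  rw [sum_ite, sum_const, sum_const, nsmul_eq_mul, nsmul_eq_mul, mul_one]
  have h3 : (univ.filter (fun a => a ∈ X i)) = X i := by
    ext a; simp
  have h4 : ((univ.filter (fun a => a ∉ X i)).card : ℝ) = Fintype.card (A i) - (X i).card := by
    have := card_filter_add_card_filter_not (s := (univ : Finset (A i))) (fun a => a ∈ X i)
    rw [h3, card_univ] at this
    have h5 : ((X i).card : ℝ) + ((univ.filter (fun a => a ∉ X i)).card : ℝ) =
        Fintype.card (A i) := by exact_mod_cast this
    linarith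
  rw [h3, h4]
  ring

/-- **few choices meet many small sets** -/
theorem few (X : ∀ i, Finset (A i)) (s : ℝ) (hs : 1 ≤ s) (k : ℝ) [∀ i, Nonempty (A i)]
    (P : (∀ i, A i) → Prop) [Fintype {c // P c}] (hP : ∀ c, P c → k ≤ hits X c) :
    (Fintype.card {c // P c} : ℝ) / Fintype.card (∀ i, A i) ≤
      Real.exp ((s - 1) * ∑ i, ((X i).card : ℝ) / Fintype.card (A i) - k * Real.log s) := by
  classical
  have hs0 : 0 < s := by linarith
  have hpos : ∀ i, (0 : ℝ) < Fintype.card (A i) := fun i => by
    exact_mod_cast Fintype.card_pos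
  have htot : (Fintype.card (∀ i, A i) : ℝ) = ∏ i, (Fintype.card (A i) : ℝ) := by
    have h : Fintype.card (∀ i, A i) = ∏ i, Fintype.card (A i) := Fintype.card_pi
    rw [h]
    push_cast
    rfl
  have htot0 : (0 : ℝ) < Fintype.card (∀ i, A i) := by
    rw [htot]; exact prod_pos fun i _ => hpos i
  have hcard : (Fintype.card {c // P c} : ℝ) = ((univ.filter P).card : ℝ) := by
    rw [Fintype.card_subtype]
  have h1 : (Fintype.card {c // P c} : ℝ) * s ^ k ≤ ∑ c : (∀ i, A i), s ^ hits X c := by
    calc (Fintype.card {c // P c} : ℝ) * s ^ k = ∑ _c ∈ univ.filter P, s ^ k := by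
          rw [sum_const, nsmul_eq_mul, hcard]
      _ ≤ ∑ c ∈ univ.filter P, s ^ hits X c := by
          refine sum_le_sum fun c hc => ?_
          rw [mem_filter] at hc
          rw [← Real.rpow_natCast]
          exact Real.rpow_le_rpow_of_exponent_le hs (hP c hc.2)
      _ ≤ _ := sum_le_sum_of_subset_of_nonneg (subset_univ _) fun _ _ _ => by positivity
  rw [exp_moment] at h1
  have h2 : ∏ i, ((Fintype.card (A i) : ℝ) + (s - 1) * (X i).card) ≤
      (∏ i, (Fintype.card (A i) : ℝ)) *
        Real.exp ((s - 1) * ∑ i, ((X i).card : ℝ) / Fintype.card (A i)) := by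
    rw [mul_sum, Real.exp_sum, ← prod_mul_distrib]
    refine prod_le_prod (fun i _ => ?_) fun i _ => ?_
    · have := hpos i
      have h3 : 0 ≤ (s - 1) * ((X i).card : ℝ) := mul_nonneg (by linarith) (by positivity)
      linarith
    · have h3 := Real.add_one_le_exp ((s - 1) * (((X i).card : ℝ) / Fintype.card (A i)))
      have h4 := hpos i
      calc (Fintype.card (A i) : ℝ) + (s - 1) * (X i).card =
          Fintype.card (A i) * ((s - 1) * (((X i).card : ℝ) / Fintype.card (A i)) + 1) := by
            field_simp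
            ring
        _ ≤ _ := mul_le_mul_of_nonneg_left h3 h4.le
  rw [← htot] at h2
  have h5 : s ^ k = Real.exp (k * Real.log s) := by
    rw [Real.rpow_def_of_pos hs0, mul_comm]
  rw [h5] at h1
  rw [div_le_iff₀ htot0, Real.exp_sub, div_mul_eq_mul_div, le_div_iff₀ (Real.exp_pos _)]
  refine h1.trans (h2.trans (le_of_eq (mul_comm _ _)))

omit [Fintype ι] [DecidableEq ι] in
/-- a subset of `k` elements with at least the average -/
theorem exists_top (f : ι → ℝ) (s : Finset ι) (k : ℕ) (hk : k ≤ s.card) :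
    ∃ K ⊆ s, K.card = k ∧ (k : ℝ) * ∑ i ∈ s, f i ≤ s.card * ∑ i ∈ K, f i := by
  classical
  induction hm : s.card - k generalizing s with
  | zero =>
    have h : s.card = k := by omega
    exact ⟨s, subset_rfl, h, by rw [h]⟩
  | succ n ih =>
    have hne : s.Nonempty := card_pos.1 (by omega)
    obtain ⟨a, ha, hmin⟩ := s.exists_min_image f hne
    have hcard : (s.erase a).card = s.card - 1 := card_erase_of_mem ha
    have hsum : ∑ i ∈ s.erase a, f i = ∑ i ∈ s, f i - f a := by
      rw [← sum_erase_add _ _ ha]; ring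
    have havg : (s.card : ℝ) * f a ≤ ∑ i ∈ s, f i := by
      rw [← nsmul_eq_mul]
      exact card_nsmul_le_sum s f (f a) hmin
    have hc1 : ((s.card - 1 : ℕ) : ℝ) = (s.card : ℝ) - 1 := by
      rw [Nat.cast_sub (card_pos.2 hne), Nat.cast_one]
    obtain ⟨K, hKs, hKc, hK⟩ := ih (s.erase a) (by omega) (by omega)
    rw [hcard, hc1, hsum] at hK
    refine ⟨K, hKs.trans (erase_subset _ _), hKc, ?_⟩
    have hs0 : (0 : ℝ) < s.card := by exact_mod_cast card_pos.2 hne
    rcases Nat.lt_or_ge 1 s.card with h1 | h1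
    · have h1' : (0 : ℝ) < (s.card : ℝ) - 1 := by
        have : (1 : ℝ) < s.card := by exact_mod_cast h1
        linarith
      have h2 : (k : ℝ) * ((s.card - 1) * ∑ i ∈ s, f i) ≤
          (s.card - 1) * (s.card * ∑ i ∈ K, f i) := by
        calc (k : ℝ) * ((s.card - 1) * ∑ i ∈ s, f i) =
            k * (s.card * (∑ i ∈ s, f i)) - k * ∑ i ∈ s, f i := by ring
          _ ≤ k * (s.card * (∑ i ∈ s, f i)) - k * (s.card * f a) := by gcongr
          _ = s.card * (k * (∑ i ∈ s, f i - f a)) := by ring
          _ ≤ s.card * ((s.card - 1) * ∑ i ∈ K, f i) := by gcongr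
          _ = _ := by ring
      have h3 : ((s.card : ℝ) - 1) * (k * ∑ i ∈ s, f i) ≤
          (s.card - 1) * (s.card * ∑ i ∈ K, f i) := by linarith
      exact le_of_mul_le_mul_left h3 h1'
    · have hk0 : k = 0 := by omega
      have hK0 : K = ∅ := by rw [← card_eq_zero]; omega
      rw [hk0, hK0]
      simp

open scoped Classical in
/-- **exchange**: one choice with a large sum gives many choices with a slightly smaller sum -/
theorem many (g : ∀ i, A i → ℝ) (hg : ∀ i a, 0 ≤ g i a) (c₀ : ∀ i, A i) (k : ℕ)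
    (hk : k ≤ Fintype.card ι) (M : ℕ) (hM : ∀ i, Fintype.card (A i) ≤ M) :
    Fintype.card (∀ i, A i) ≤ M ^ k *
      (univ.filter (fun c : (∀ i, A i) =>
        (k : ℝ) * ∑ i, g i (c₀ i) ≤ Fintype.card ι * ∑ i, g i (c i))).card := by
  obtain ⟨K, -, hKc, hK⟩ := exists_top (fun i => g i (c₀ i)) univ k (by rw [card_univ]; exact hk)
  rw [card_univ] at hK
  have hsub : Fintype.piFinset (fun i => if i ∈ K then {c₀ i} else univ) ⊆
      (univ.filter (fun c : (∀ i, A i) =>
        (k : ℝ) * ∑ i, g i (c₀ i) ≤ Fintype.card ι * ∑ i, g i (c i))) := by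
    intro c hc
    rw [Fintype.mem_piFinset] at hc
    rw [mem_filter]
    refine ⟨mem_univ _, hK.trans (mul_le_mul_of_nonneg_left ?_ (by positivity))⟩
    calc ∑ i ∈ K, g i (c₀ i) = ∑ i ∈ K, g i (c i) := by
          refine sum_congr rfl fun i hi => ?_
          have := hc i
          rw [if_pos hi, mem_singleton] at this
          rw [this]
      _ ≤ ∑ i, g i (c i) := sum_le_sum_of_subset_of_nonneg (subset_univ _) fun i _ _ => hg i _
  have h1 := card_le_card hsub
  rw [Fintype.card_piFinset] at h1
  have h2 : Fintype.card (∀ i, A i) ≤ M ^ k *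
      ∏ i, (if i ∈ K then {c₀ i} else (univ : Finset (A i))).card := by
    have h3 : Fintype.card (∀ i, A i) = ∏ i, Fintype.card (A i) := Fintype.card_pi
    rw [h3, ← prod_mul_prod_compl K (fun i => Fintype.card (A i)),
      ← prod_mul_prod_compl K (fun i => (if i ∈ K then {c₀ i} else (univ : Finset (A i))).card)]
    have h4 : ∏ i ∈ K, (if i ∈ K then {c₀ i} else (univ : Finset (A i))).card = 1 :=
      prod_eq_one fun i hi => by rw [if_pos hi, card_singleton]
    have h5 : ∏ i ∈ Kᶜ, (if i ∈ K then {c₀ i} else (univ : Finset (A i))).card =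
        ∏ i ∈ Kᶜ, Fintype.card (A i) :=
      prod_congr rfl fun i hi => by rw [if_neg (mem_compl.1 hi), card_univ]
    rw [h4, h5, one_mul]
    refine Nat.mul_le_mul_right _ ?_
    calc ∏ i ∈ K, Fintype.card (A i) ≤ ∏ _i ∈ K, M := prod_le_prod' fun i _ => hM i
      _ = M ^ k := by rw [prod_const, hKc]
  exact h2.trans (Nat.mul_le_mul_left _ h1)

end

end Pool.Agent.Q75.WT
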