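import Pool.Agent.Q152.TypEHBound
import Pool.Agent.Q93.WL.Core
import Pool.Agent.Erdos456.Mertens
import Pool.Agent.H617R3.BT.Sieve
import Pool.Agent.Q75.WT.Fin

/-!
# Arithmetic input: Brun–Titchmarsh for the maximal error, and `n / φ(n) ≤ C log log N`
-/

set_option autoImplicit false

namespace Pool.Agent.Q75.WT

open Finset Filter
open Pool.Agent.H300R2.WEH
open Pool.Agent.Results.MP_188a10_nt.WeightedExceptional (EMax EOff nuD EMax_eq log_ge_one nuD_le)

/-- the maximal error modulo `d ≤ N^α` is at most a constant times `N / (φ(d) log N)` -/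
theorem EMax_bt (α : ℝ) (hα : α < 1) (N d : ℕ) (hN : 4 ≤ N) (hd : 1 ≤ d)
    (hdN : (d : ℝ) ≤ (N : ℝ) ^ α) (a : (ZMod d)ˣ) :
    EMax N d a ≤ (66 / (1 - α) + 10) * (N / ((Nat.totient d : ℝ) * Real.log N)) := by
  haveI : NeZero d := ⟨by omega⟩
  have h1 : 0 < 1 - α := by linarith
  have hN4 : (4 : ℝ) ≤ N := by exact_mod_cast hN
  have hlog : 0 < Real.log N := Real.log_pos (by linarith)
  rw [EMax_eq]
  unfold errMax
  refine Real.iSup_le ?_ (by positivity)
  rintro ⟨y, hy2, hyN⟩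
  exact Pool.Agent.Q152.TypEH.err_bt (1 - α) h1 N d _ hN hd
    (by rw [sub_sub_cancel]; exact hdN) y hy2 hyN

theorem ratio_eq (n : ℕ) (hn : 1 ≤ n) :
    (n : ℝ) / (Nat.totient n : ℝ) = ∏ p ∈ n.primeFactors, ((1 : ℝ) - (p : ℝ)⁻¹)⁻¹ := by
  have hn0 : (0 : ℝ) < n := by exact_mod_cast hn
  have h1 : (Nat.totient n : ℝ) = n * ∏ p ∈ n.primeFactors, (1 - (p : ℝ)⁻¹) := by
    have := Nat.totient_eq_mul_prod_factors n
    have h2 : ((Nat.totient n : ℚ) : ℝ) = ((n * ∏ p ∈ n.primeFactors, (1 - (p : ℚ)⁻¹) : ℚ) : ℝ) := by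
      rw [this]
    push_cast at h2
    exact h2
  rw [h1, ← div_div, div_self hn0.ne', one_div, Finset.prod_inv_distrib]

theorem factor_le (p : ℕ) (hp : p.Prime) :
    ((1 : ℝ) - (p : ℝ)⁻¹)⁻¹ ≤ Real.exp (1 / (p : ℝ) + 2 * (1 / (p : ℝ) ^ 2)) := by
  have h2 : (2 : ℝ) ≤ p := by exact_mod_cast hp.two_le
  have hp0 : (0 : ℝ) < p := by linarith
  have e1 : ((1 : ℝ) - (p : ℝ)⁻¹)⁻¹ = 1 / ((p : ℝ) - 1) + 1 := by
    have h3 : (p : ℝ) - 1 ≠ 0 := by linarith
    have h4 : (1 : ℝ) - (p : ℝ)⁻¹ ≠ 0 := by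
      have : (p : ℝ)⁻¹ ≤ 1 / 2 := by
        rw [inv_le_comm₀ hp0 (by norm_num)]; norm_num; exact hp.two_le
      linarith
    field_simp
    ring
  rw [e1]
  refine (Real.add_one_le_exp _).trans (Real.exp_le_exp.2 ?_)
  have e2 : 1 / ((p : ℝ) - 1) = 1 / p + 1 / (p * (p - 1)) := by
    have h3 : (p : ℝ) - 1 ≠ 0 := by linarith
    field_simp
    ring
  rw [e2]
  have e3 : 1 / ((p : ℝ) * (p - 1)) ≤ 2 * (1 / (p : ℝ) ^ 2) := by
    rw [mul_one_div, div_le_div_iff₀ (by nlinarith) (by positivity)]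
    nlinarith
  linarith

/-- `n / φ(n) ≤ C log log N` for `n ≤ N` -/
theorem tot_loglog : ∃ C : ℝ, 1 ≤ C ∧ ∀ N : ℕ, 3 ≤ Real.log N → ∀ n : ℕ, 1 ≤ n → n ≤ N →
    (n : ℝ) / (Nat.totient n : ℝ) ≤ C * Real.log (Real.log N) := by
  obtain ⟨C, hC⟩ := Pool.Agent.Erdos456.Mert.mertens_inv
  have hs : Summable (fun n : ℕ => 1 / (n : ℝ) ^ 2) :=
    Real.summable_one_div_nat_pow.2 (by norm_num)
  obtain ⟨Z, hZ⟩ : ∃ Z : ℝ, Z = ∑' n : ℕ, 1 / (n : ℝ) ^ 2 := ⟨_, rfl⟩
  have hZ0 : 0 ≤ Z := by rw [hZ]; exact tsum_nonneg fun n => by positivity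
  refine ⟨Real.exp (|C| + 3 + 2 * Z), Real.one_le_exp (by positivity), fun N hN n hn hnN => ?_⟩
  set L := Real.log (N : ℝ) with hL
  have hLL : 1 < Real.log L := by
    have h1 : Real.exp 1 < L := lt_of_lt_of_le (by
      have := Real.exp_one_lt_d9
      linarith) hN
    exact (Real.lt_log_iff_exp_lt (by linarith)).2 h1
  have hn0 : (0 : ℝ) < n := by exact_mod_cast hn
  set M := ⌊L⌋₊ with hM
  have hM3 : 3 ≤ M := Nat.le_floor (by exact_mod_cast hN)
  have hMle : (M : ℝ) ≤ L := Nat.floor_le (by linarith)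
  have hMlt : L < M + 1 := Nat.lt_floor_add_one L
  have hM3' : (3 : ℝ) ≤ M := by exact_mod_cast hM3
  have hlM : 1 < Real.log M := by
    have h1 : Real.exp 1 < M := lt_of_lt_of_le (by
      have := Real.exp_one_lt_d9
      linarith) hM3'
    exact (Real.lt_log_iff_exp_lt (by linarith)).2 h1
  rw [ratio_eq n hn]
  have h1 : ∏ p ∈ n.primeFactors, ((1 : ℝ) - (p : ℝ)⁻¹)⁻¹ ≤
      Real.exp (∑ p ∈ n.primeFactors, (1 / (p : ℝ) + 2 * (1 / (p : ℝ) ^ 2))) := by
    rw [Real.exp_sum]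
    refine prod_le_prod (fun p hp => ?_) fun p hp => factor_le p (Nat.prime_of_mem_primeFactors hp)
    have h2 : (2 : ℝ) ≤ p := by exact_mod_cast (Nat.prime_of_mem_primeFactors hp).two_le
    have : (p : ℝ)⁻¹ ≤ 1 := inv_le_one_of_one_le₀ (by linarith)
    exact inv_nonneg.2 (by linarith)
  have h2 : ∑ p ∈ n.primeFactors, 2 * (1 / (p : ℝ) ^ 2) ≤ 2 * Z := by
    rw [← mul_sum, hZ]
    exact mul_le_mul_of_nonneg_left (hs.sum_le_tsum _ fun _ _ => by positivity) (by norm_num)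
  have h3 : ∑ p ∈ n.primeFactors, 1 / (p : ℝ) ≤ Real.log (Real.log L) + |C| + 3 := by
    rw [← sum_filter_add_sum_filter_not n.primeFactors (fun p => p ≤ M)]
    have e1 : ∑ p ∈ n.primeFactors.filter (fun p => p ≤ M), 1 / (p : ℝ) ≤
        Real.log (Real.log L) + |C| := by
      have e2 : ∑ p ∈ n.primeFactors.filter (fun p => p ≤ M), 1 / (p : ℝ) ≤
          ∑ p ∈ (Icc 1 M).filter Nat.Prime, (1 : ℝ) / p := by
        refine sum_le_sum_of_subset_of_nonneg ?_ fun p _ _ => by positivity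
        intro p hp
        rw [mem_filter] at hp
        have := Nat.prime_of_mem_primeFactors hp.1
        rw [mem_filter, mem_Icc]
        exact ⟨⟨this.one_le, hp.2⟩, this⟩
      have e3 := (abs_le.1 (hC M hM3)).2
      have e4 : Real.log (Real.log M) ≤ Real.log (Real.log L) :=
        Real.log_le_log (by linarith) (Real.log_le_log (by linarith) hMle)
      have e5 := le_abs_self C
      linarith
    have e6 : ∑ p ∈ n.primeFactors.filter (fun p => ¬ p ≤ M), 1 / (p : ℝ) ≤ 3 := by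
      calc ∑ p ∈ n.primeFactors.filter (fun p => ¬ p ≤ M), 1 / (p : ℝ) ≤
          ∑ _p ∈ n.primeFactors.filter (fun p => ¬ p ≤ M), 1 / (M : ℝ) := by
            refine sum_le_sum fun p hp => ?_
            rw [mem_filter] at hp
            have : (M : ℝ) ≤ p := by exact_mod_cast (not_le.1 hp.2).le
            exact one_div_le_one_div_of_le (by linarith) this
        _ = ((n.primeFactors.filter (fun p => ¬ p ≤ M)).card : ℝ) * (1 / M) := by
            rw [sum_const, nsmul_eq_mul]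
        _ ≤ (n.primeFactors.card : ℝ) * (1 / M) := by
            gcongr
            exact filter_subset _ _
        _ ≤ 3 := by
            rw [mul_one_div, div_le_iff₀ (by linarith)]
            have e7 := Pool.Agent.H617R3.BT.card_primeFactors_le (d := n) (by omega)
            have e8 : Real.log n ≤ L := Real.log_le_log hn0 (by exact_mod_cast hnN)
            have e9 := Real.log_two_gt_d9
            refine e7.trans ?_
            rw [div_le_iff₀ (by linarith)]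
            nlinarith
    linarith
  refine h1.trans ?_
  rw [sum_add_distrib]
  calc Real.exp (∑ p ∈ n.primeFactors, 1 / (p : ℝ) + ∑ p ∈ n.primeFactors, 2 * (1 / (p : ℝ) ^ 2)) ≤
      Real.exp ((|C| + 3 + 2 * Z) + Real.log (Real.log L)) := Real.exp_le_exp.2 (by linarith)
    _ = _ := by rw [Real.exp_add, Real.exp_log (by linarith)]

/-- powers of the logarithm against powers of `N` -/
theorem ev_rpow (a δ c : ℝ) (hδ : 0 < δ) : ∃ N₀ : ℕ, ∀ N : ℕ, N₀ ≤ N →
    c * Real.log N ^ a ≤ (N : ℝ) ^ δ := by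
  have h1 := (isLittleO_log_rpow_rpow_atTop a hδ).bound (show (0 : ℝ) < 1 / (|c| + 1) by positivity)
  have h2 := (tendsto_natCast_atTop_atTop (R := ℝ)).eventually h1
  obtain ⟨N₀, hN₀⟩ := eventually_atTop.1 h2
  refine ⟨N₀ + 3, fun N hN => ?_⟩
  have h3 := hN₀ N (by omega)
  have hl := log_ge_one (x := N) (by omega)
  have hl0 : 0 < Real.log N := by linarith
  have hN0 : (0 : ℝ) < N := by exact_mod_cast (by omega : 0 < N)
  rw [Real.norm_of_nonneg (by positivity), Real.norm_of_nonneg (by positivity)] at h3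
  have h4 : (|c| + 1) * Real.log N ^ a ≤ (N : ℝ) ^ δ := by
    have h5 : (0 : ℝ) < |c| + 1 := by positivity
    calc (|c| + 1) * Real.log N ^ a ≤ (|c| + 1) * (1 / (|c| + 1) * (N : ℝ) ^ δ) := by gcongr
      _ = (N : ℝ) ^ δ := by field_simp
  have h6 : 0 < Real.log (N : ℝ) ^ a := by positivity
  have h7 := le_abs_self c
  nlinarith

/-- powers of the logarithm tend to infinity -/
theorem ev_logpow (δ c : ℝ) (hδ : 0 < δ) : ∃ N₀ : ℕ, ∀ N : ℕ, N₀ ≤ N → c ≤ Real.log N ^ δ := by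
  have h1 : Tendsto (fun N : ℕ => Real.log (N : ℝ) ^ δ) atTop atTop :=
    (tendsto_rpow_atTop hδ).comp (Real.tendsto_log_atTop.comp tendsto_natCast_atTop_atTop)
  obtain ⟨N₀, hN₀⟩ := eventually_atTop.1 (h1.eventually (eventually_ge_atTop c))
  exact ⟨N₀, hN₀⟩

/-- `c log log N ≤ (log N)^δ` -/
theorem ev_loglog (δ c : ℝ) (hδ : 0 < δ) : ∃ N₀ : ℕ, ∀ N : ℕ, N₀ ≤ N →
    c * Real.log (Real.log N) ≤ Real.log N ^ δ := by
  have h1 := (isLittleO_log_rpow_atTop hδ).bound (show (0 : ℝ) < 1 / (|c| + 1) by positivity)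
  have h2 := (Real.tendsto_log_atTop.comp (tendsto_natCast_atTop_atTop (R := ℝ))).eventually h1
  obtain ⟨N₀, hN₀⟩ := eventually_atTop.1 h2
  refine ⟨N₀ + 3, fun N hN => ?_⟩
  have h3 := hN₀ N (by omega)
  have hl := log_ge_one (x := N) (by omega)
  have hl0 : 0 < Real.log N := by linarith
  simp only [Function.comp] at h3
  rw [Real.norm_of_nonneg (Real.log_nonneg hl), Real.norm_of_nonneg (by positivity)] at h3
  have h5 : (0 : ℝ) < |c| + 1 := by positivity
  have h4 : (|c| + 1) * Real.log (Real.log N) ≤ Real.log N ^ δ := by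
    calc (|c| + 1) * Real.log (Real.log N) ≤ (|c| + 1) * (1 / (|c| + 1) * Real.log N ^ δ) := by
          gcongr
      _ = _ := by field_simp
  have h6 : 0 ≤ Real.log (Real.log N) := Real.log_nonneg hl
  have h7 := le_abs_self c
  nlinarith

end Pool.Agent.Q75.WT
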