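import Pool.Agent.Q75.WT.LB

/-!
# Exchange: one bad choice gives many, and the threshold
-/

set_option autoImplicit false

namespace Pool.Agent.Q75.WT

open Finset Filter
open Pool.Agent.H300R2.WEH
open Pool.Agent.Results.MP_188a10_nt.WeightedExceptional (EMax EOff nuD EMax_eq log_ge_one nuD_le)

theorem term_nonneg {κ : ℝ} (hκ : 0 ≤ κ) (N d : ℕ) (a : (ZMod d)ˣ) :
    0 ≤ κ ^ nuD d * EMax N d a :=
  mul_nonneg (by positivity) (Pool.Agent.Q93.WL.EMax_nonneg _ _ _)

open scoped Classical in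
/-- **exchange** -/
theorem exchange (κ : ℝ) (hκ : 0 ≤ κ) (T : Set ℕ) (N R : ℕ) (c₀ : Choice T R) (k : ℕ)
    (hk : k ≤ (Blk T R).card) :
    Fintype.card (Choice T R) ≤ (2 * R) ^ k *
      Fintype.card {c : Choice T R // (k : ℝ) * F κ T N R c₀ ≤ (Blk T R).card * F κ T N R c} := by
  have h := many (A := fun k : Blk T R => (ZMod ((k : ℕ) + 1))ˣ)
    (fun k a => κ ^ nuD ((k : ℕ) + 1) * EMax N ((k : ℕ) + 1) a) (fun k a => term_nonneg hκ _ _ _)
    c₀ k (by rw [Fintype.card_coe]; exact hk) (2 * R) (fun k => by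
      rw [ZMod.card_units_eq_totient]
      have := mem_Ico.1 (Blk_sub T R k.2)
      exact (Nat.totient_le _).trans (by omega))
  rw [Fintype.card_coe] at h
  rw [Fintype.card_subtype]
  exact h

theorem card_choice_pos (T : Set ℕ) (R : ℕ) : (0 : ℝ) < Fintype.card (Choice T R) := by
  exact_mod_cast Fintype.card_pos

theorem Blk_card_le (T : Set ℕ) (R : ℕ) : ((Blk T R).card : ℝ) ≤ R := by
  have : (Blk T R).card ≤ R := by
    calc (Blk T R).card ≤ (Ico R (2 * R)).card := card_le_card (Blk_sub T R)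
      _ = R := by rw [Nat.card_Ico]; omega
  exact_mod_cast this

/-- one choice with saving less than `A` makes many choices with saving less than `U` -/
theorem bad_lower {κ : ℝ} (hκ : 0 ≤ κ) {T : Set ℕ} {N R : ℕ} {A U : ℝ} (hAU : A ≤ U)
    (hR : 1 ≤ R) (h2R : 2 * R ≤ N) (hL : 1 ≤ Real.log N)
    (hLR : Real.log N ^ (U - A) ≤ R) (c₀ : Choice T R)
    (hc₀ : N / Real.log N ^ A < F κ T N R c₀) :
    Real.exp (-(2 * ((R : ℝ) / Real.log N ^ (U - A - 1)))) ≤ Bad κ T N R U := by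
  classical
  set L := Real.log (N : ℝ) with hLdef
  have hL0 : 0 < L := by linarith
  have hR0 : (0 : ℝ) < R := by exact_mod_cast hR
  have hN0 : (0 : ℝ) < N := by exact_mod_cast (by omega : 0 < N)
  obtain ⟨m, hm⟩ : ∃ m : ℕ, m = (Blk T R).card := ⟨_, rfl⟩
  have hmR : (m : ℝ) ≤ R := by rw [hm]; exact Blk_card_le T R
  have hm0 : 0 < m := by
    rcases Nat.eq_zero_or_pos m with h0 | h0
    · exfalso
      rw [h0] at hm
      have hemp : Blk T R = ∅ := card_eq_zero.1 hm.symm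
      have h1 : F κ T N R c₀ = 0 := by
        unfold F
        apply sum_eq_zero
        rintro ⟨k, hk⟩ _
        rw [hemp] at hk
        simp at hk
      rw [h1] at hc₀
      have : 0 < (N : ℝ) / L ^ A := by positivity
      linarith
    · exact h0
  have hm0' : (0 : ℝ) < m := by exact_mod_cast hm0
  have hP1 : 1 ≤ L ^ (U - A) := Real.one_le_rpow hL (by linarith)
  obtain ⟨k, hk⟩ : ∃ k : ℕ, k = ⌈(m : ℝ) / L ^ (U - A)⌉₊ := ⟨_, rfl⟩
  have hkm : k ≤ m := by
    rw [hk]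
    exact Nat.ceil_le.2 (div_le_self hm0'.le hP1)
  have hk1 : (m : ℝ) / L ^ (U - A) ≤ k := by rw [hk]; exact Nat.le_ceil _
  have hk2 : (k : ℝ) < (m : ℝ) / L ^ (U - A) + 1 := by
    rw [hk]; exact Nat.ceil_lt_add_one (by positivity)
  have hex := exchange κ hκ T N R c₀ k (by rw [← hm]; exact hkm)
  have hsub : Fintype.card {c : Choice T R // (k : ℝ) * F κ T N R c₀ ≤
      (Blk T R).card * F κ T N R c} ≤
      Fintype.card {c : Choice T R // N / L ^ U < F κ T N R c} := by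
    apply Fintype.card_subtype_mono
    intro c hc
    have hc' : (k : ℝ) * F κ T N R c₀ ≤ (Blk T R).card * F κ T N R c := hc
    rw [← hm] at hc'
    show N / L ^ U < F κ T N R c
    have hF0 : 0 < F κ T N R c₀ := lt_trans (by positivity) hc₀
    have e1 : (m : ℝ) / L ^ (U - A) * F κ T N R c₀ ≤ m * F κ T N R c :=
      (mul_le_mul_of_nonneg_right hk1 hF0.le).trans hc'
    have e2 : (m : ℝ) / L ^ (U - A) * (N / L ^ A) < m * F κ T N R c :=
      lt_of_lt_of_le (by gcongr) e1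
    have e3 : (m : ℝ) / L ^ (U - A) * (N / L ^ A) = m * (N / L ^ U) := by
      have : L ^ U = L ^ (U - A) * L ^ A := by
        rw [← Real.rpow_add hL0]; congr 1; ring
      rw [this]
      field_simp
    rw [e3] at e2
    exact lt_of_mul_lt_mul_left e2 hm0'.le
  have h1 : (Fintype.card (Choice T R) : ℝ) ≤ (2 * (R : ℝ)) ^ k *
      (Fintype.card {c : Choice T R // N / L ^ U < F κ T N R c} : ℝ) := by
    have := hex.trans (Nat.mul_le_mul_left _ hsub)
    exact_mod_cast this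
  have hC0 := card_choice_pos T R
  have hbad : Bad κ T N R U = (Fintype.card {c : Choice T R // N / L ^ U < F κ T N R c} : ℝ) /
      Fintype.card (Choice T R) := rfl
  rw [hbad, le_div_iff₀ hC0]
  have h2 : (2 * (R : ℝ)) ^ k ≤ Real.exp (2 * ((R : ℝ) / L ^ (U - A - 1))) := by
    have e1 : (2 * (R : ℝ)) ^ k = Real.exp (k * Real.log (2 * R)) := by
      rw [Real.exp_nat_mul, Real.exp_log (by positivity)]
    rw [e1]
    apply Real.exp_le_exp.2
    have e2 : Real.log (2 * (R : ℝ)) ≤ L :=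
      Real.log_le_log (by positivity) (by exact_mod_cast h2R)
    have e3 : L ^ (U - A - 1) = L ^ (U - A) / L := by
      rw [Real.rpow_sub_one hL0.ne']
    have e4 : (R : ℝ) / L ^ (U - A - 1) = (R : ℝ) / L ^ (U - A) * L := by
      rw [e3]
      field_simp
    have e5 : (1 : ℝ) ≤ (R : ℝ) / L ^ (U - A) := by
      rw [le_div_iff₀ (by positivity), one_mul]
      exact hLR
    have e6 : (m : ℝ) / L ^ (U - A) ≤ (R : ℝ) / L ^ (U - A) := by gcongr
    rw [e4]
    have e7 : (0 : ℝ) ≤ k := Nat.cast_nonneg k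
    have e8 : 0 ≤ Real.log (2 * (R : ℝ)) := Real.log_nonneg (by
      have : (1 : ℝ) ≤ R := by exact_mod_cast hR
      linarith)
    calc (k : ℝ) * Real.log (2 * R) ≤ (2 * ((R : ℝ) / L ^ (U - A))) * L := by
          apply mul_le_mul (by linarith) e2 e8 (by positivity)
      _ = _ := by ring
  calc Real.exp (-(2 * ((R : ℝ) / L ^ (U - A - 1)))) * (Fintype.card (Choice T R) : ℝ) ≤
      Real.exp (-(2 * ((R : ℝ) / L ^ (U - A - 1)))) * ((2 * (R : ℝ)) ^ k *
      (Fintype.card {c : Choice T R // N / L ^ U < F κ T N R c} : ℝ)) := by gcongr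
    _ ≤ Real.exp (-(2 * ((R : ℝ) / L ^ (U - A - 1)))) *
        (Real.exp (2 * ((R : ℝ) / L ^ (U - A - 1))) *
      (Fintype.card {c : Choice T R // N / L ^ U < F κ T N R c} : ℝ)) := by gcongr
    _ = _ := by
        rw [← mul_assoc, ← Real.exp_add]
        simp

/-- saving of `(log N)^A` at all levels up to `N^α` -/
def Lev (κ : ℝ) (T : Set ℕ) (α A : ℝ) : Prop := ∃ N₀ : ℕ, ∀ N : ℕ, N₀ ≤ N → ∀ R : ℕ, 1 ≤ R →
  (R : ℝ) ≤ (N : ℝ) ^ α → ∀ c : Choice T R, F κ T N R c ≤ N / Real.log N ^ A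

/-- at most `exp(- 2 R / (log N)^V)` of the choices have saving less than `U` -/
def Thr (κ : ℝ) (T : Set ℕ) (β α V U : ℝ) : Prop := ∃ N₀ : ℕ, ∀ N : ℕ, N₀ ≤ N → ∀ R : ℕ,
  (N : ℝ) ^ β ≤ R → (R : ℝ) ≤ (N : ℝ) ^ α →
    Bad κ T N R U < Real.exp (-(2 * ((R : ℝ) / Real.log N ^ V)))

/-- Bombieri–Vinogradov for the small blocks -/
theorem lev_small (κ : ℝ) (hκ : 1 ≤ κ) (β A : ℝ) (hβ : β < 1 / 2) : ∃ N₀ : ℕ, ∀ N : ℕ, N₀ ≤ N →
    ∀ R : ℕ, 1 ≤ R → (R : ℝ) ≤ (N : ℝ) ^ β → ∀ (T : Set ℕ) (c : Choice T R),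
    F κ T N R c ≤ N / Real.log N ^ A := by
  have hκ0 : 0 ≤ κ := by linarith
  obtain ⟨U', hU'⟩ := exists_nat_ge (A + 1)
  obtain ⟨B, C, H⟩ := Pool.Agent.Results.MP_188a10_nt.WeightedExceptional.result κ hκ U'
  obtain ⟨n1, hn1⟩ := ev_logpow 1 C one_pos
  obtain ⟨n2, hn2⟩ := ev_rpow 0 (1 - β) 2 (by linarith)
  obtain ⟨n3, hn3⟩ := ev_rpow B (1 - 2 * β) 5 (by linarith)
  refine ⟨n1 + n2 + n3 + 3, fun N hN R hR hRN T c => ?_⟩
  have g1 := hn1 N (by omega)
  have g2 := hn2 N (by omega)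
  have g3 := hn3 N (by omega)
  rw [Real.rpow_one] at g1
  rw [Real.rpow_zero, mul_one] at g2
  rw [Real.rpow_natCast] at g3
  have hL1 : 1 ≤ Real.log N := log_ge_one (by omega)
  set L := Real.log (N : ℝ) with hL
  have hL0 : 0 < L := by linarith
  have hN0 : (0 : ℝ) < N := by exact_mod_cast (by omega : 0 < N)
  have hR0 : (0 : ℝ) < R := by exact_mod_cast hR
  have h2R : 2 * R ≤ N := by
    have : 2 * (R : ℝ) ≤ N := by
      calc 2 * (R : ℝ) ≤ (N : ℝ) ^ (1 - β) * (N : ℝ) ^ β := by gcongr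
        _ = N := by rw [← Real.rpow_add hN0]; simp
    exact_mod_cast this
  obtain ⟨⟨X, hX, hsum⟩, -⟩ := H N (by omega)
  have hempty : ∀ k : Blk T R, X ((k : ℕ) + 1) = ∅ := by
    intro k
    have hk := mem_Ico.1 (Blk_sub T R k.2)
    obtain ⟨d, hd⟩ : ∃ d : ℕ, d = (k : ℕ) + 1 := ⟨_, rfl⟩
    rw [← hd]
    have hd2 : (d : ℝ) ≤ 2 * R := by exact_mod_cast (by omega : d ≤ 2 * R)
    have h1 := hX d (by omega)
    have h2 : ((X d).card : ℝ) < 1 := by
      refine lt_of_le_of_lt h1 ?_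
      rw [div_lt_one hN0]
      calc (d : ℝ) ^ 2 * L ^ B ≤ (2 * (N : ℝ) ^ β) ^ 2 * L ^ B := by
            have : (d : ℝ) ≤ 2 * (N : ℝ) ^ β := hd2.trans (by gcongr)
            gcongr
        _ = 4 * L ^ B * (N : ℝ) ^ (2 * β) := by
            rw [mul_pow, ← Real.rpow_natCast ((N : ℝ) ^ β), ← Real.rpow_mul hN0.le]
            push_cast
            rw [mul_comm β 2]
            ring
        _ < 5 * L ^ B * (N : ℝ) ^ (2 * β) := by
            have : 0 < L ^ B * (N : ℝ) ^ (2 * β) := by positivity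
            nlinarith
        _ ≤ (N : ℝ) ^ (1 - 2 * β) * (N : ℝ) ^ (2 * β) := by gcongr
        _ = N := by rw [← Real.rpow_add hN0]; simp
    have h3 : (X d).card < 1 := by exact_mod_cast h2
    exact card_eq_zero.1 (by omega)
  calc F κ T N R c ≤ ∑ k : Blk T R, κ ^ nuD ((k : ℕ) + 1) * EOff N ((k : ℕ) + 1) (X ((k : ℕ) + 1)) := by
        unfold F
        refine sum_le_sum fun k _ => mul_le_mul_of_nonneg_left ?_ (by positivity)
        exact Pool.Agent.Q93.WL.EMax_off N k _ _ (by rw [hempty k]; exact notMem_empty _)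
    _ ≤ ∑ d ∈ Icc 1 N, κ ^ nuD d * EOff N d (X d) :=
        sum_blk_le (fun d => κ ^ nuD d * EOff N d (X d))
          (fun d => mul_nonneg (by positivity) (EOff_nonneg _ _ _)) T R N h2R
    _ ≤ C * (N / L ^ U') := hsum
    _ ≤ N / L ^ A := by
        have e1 : L ^ (A + 1) ≤ L ^ U' := by
          rw [← Real.rpow_natCast]
          exact Real.rpow_le_rpow_of_exponent_le hL1 hU'
        rw [Real.rpow_add hL0, Real.rpow_one] at e1
        have e2 : 0 < L ^ A := by positivity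
        rcases le_or_gt C 0 with hC | hC
        · have : C * ((N : ℝ) / L ^ U') ≤ 0 :=
            mul_nonpos_of_nonpos_of_nonneg hC (by positivity)
          have : 0 ≤ (N : ℝ) / L ^ A := by positivity
          linarith
        · calc C * ((N : ℝ) / L ^ U') ≤ C * (N / (L ^ A * L)) := by gcongr
            _ = C / L * (N / L ^ A) := by field_simp
            _ ≤ 1 * (N / L ^ A) := by
                apply mul_le_mul_of_nonneg_right _ (by positivity)
                rw [div_le_one hL0]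
                exact g1
            _ = _ := one_mul _

/-- **the threshold** -/
theorem lev_iff (κ : ℝ) (hκ : 1 ≤ κ) (T : Set ℕ) (β α A : ℝ) (hβ0 : 0 < β) (hβ : β < 1 / 2)
    (hα : α < 1) : Lev κ T α A ↔ ∃ U : ℝ, A ≤ U ∧ Thr κ T β α (U - A - 1) U := by
  have hκ0 : 0 ≤ κ := by linarith
  constructor
  · rintro ⟨N₀, h⟩
    refine ⟨A, le_rfl, N₀ + 3, fun N hN R hR1 hR2 => ?_⟩
    have hN0 : (0 : ℝ) < N := by exact_mod_cast (by omega : 0 < N)
    have hR : 1 ≤ R := by
      have : (0 : ℝ) < R := lt_of_lt_of_le (by positivity) hR1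
      exact_mod_cast this
    have hemp : IsEmpty {c : Choice T R // N / Real.log N ^ A < F κ T N R c} :=
      ⟨fun c => absurd c.2 (not_lt.2 (h N (by omega) R hR hR2 c.1))⟩
    have hbad : Bad κ T N R A = 0 := by
      unfold Bad
      rw [Fintype.card_eq_zero_iff.2 hemp]
      simp
    rw [hbad]
    exact Real.exp_pos _
  · rintro ⟨U, hAU, N₁, h⟩
    obtain ⟨n1, hn1⟩ := lev_small κ hκ β A hβ
    obtain ⟨n2, hn2⟩ := ev_rpow 0 (1 - α) 2 (by linarith)
    obtain ⟨n3, hn3⟩ := ev_rpow (U - A) β 1 hβ0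
    refine ⟨N₁ + n1 + n2 + n3 + 3, fun N hN R hR hRN c => ?_⟩
    rcases le_total (R : ℝ) ((N : ℝ) ^ β) with hRβ | hRβ
    · exact hn1 N (by omega) R hR hRβ T c
    · by_contra hcon
      rw [not_le] at hcon
      have g2 := hn2 N (by omega)
      have g3 := hn3 N (by omega)
      rw [Real.rpow_zero, mul_one] at g2
      rw [one_mul] at g3
      have hN0 : (0 : ℝ) < N := by exact_mod_cast (by omega : 0 < N)
      have h2R : 2 * R ≤ N := by
        have : 2 * (R : ℝ) ≤ N := by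
          calc 2 * (R : ℝ) ≤ (N : ℝ) ^ (1 - α) * (N : ℝ) ^ α := by gcongr
            _ = N := by rw [← Real.rpow_add hN0]; simp
        exact_mod_cast this
      have h1 := bad_lower hκ0 hAU hR h2R (log_ge_one (by omega)) (g3.trans hRβ) c hcon
      have h2 := h N (by omega) R hRβ hRN
      linarith

end Pool.Agent.Q75.WT
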