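import Pool.Agent.Q75.WT.Up

/-!
# How many moduli are needed for a given sum
-/

set_option autoImplicit false

namespace Pool.Agent.Q75.WT

open Finset
open Pool.Agent.H300R2.WEH
open Pool.Agent.Results.MP_188a10_nt.WeightedExceptional (EMax EOff nuD EMax_eq log_ge_one nuD_le)

/-- bounds valid for every modulus of the block -/
theorem inv_tot {Ct : ℝ} {N : ℕ} (hCt : ∀ n : ℕ, 1 ≤ n → n ≤ N →
    (n : ℝ) / (Nat.totient n : ℝ) ≤ Ct) {R k : ℕ} (hR : 1 ≤ R) (h2 : 2 * R ≤ N)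
    (hk : k ∈ Ico R (2 * R)) : 1 / (Nat.totient (k + 1) : ℝ) ≤ Ct / R := by
  rw [mem_Ico] at hk
  have hR0 : (0 : ℝ) < R := by exact_mod_cast hR
  have h := hCt (k + 1) (by omega) (by omega)
  have hφ : (0 : ℝ) < Nat.totient (k + 1) := by exact_mod_cast Nat.totient_pos.2 (by omega)
  have hkR : (R : ℝ) ≤ ((k + 1 : ℕ) : ℝ) := by exact_mod_cast (by omega : R ≤ k + 1)
  have h3 : (R : ℝ) / Nat.totient (k + 1) ≤ Ct := le_trans (by gcongr) h
  rw [le_div_iff₀ hR0, one_div_mul_eq_div]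
  exact h3

/-- no weights: the exponent `U - 1 + ε` -/
theorem needs_one (α U ε : ℝ) (hα : α < 1) (hε : 0 < ε) : NeedsMany 1 α U (U - 1 + ε) := by
  obtain ⟨Ct, hCt1, hCt⟩ := tot_loglog
  obtain ⟨c, hc⟩ : ∃ c : ℝ, c = 66 / (1 - (1 + α) / 2) + 10 := ⟨_, rfl⟩
  have hc0 : 0 < c := by
    rw [hc]
    have : 0 < 1 - (1 + α) / 2 := by linarith
    positivity
  obtain ⟨n1, hn1⟩ := ev_loglog ε (2 * c * Ct) hε
  obtain ⟨n2, hn2⟩ := ev_rpow 0 (1 - α) 2 (by linarith)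
  obtain ⟨n5, hn5⟩ := ev_logpow 1 3 one_pos
  refine ⟨n1 + n2 + n5 + 8, fun N hN R hR hRN G hG h => ?_⟩
  have g1 := hn1 N (by omega)
  have g2 := hn2 N (by omega)
  have g5 := hn5 N (by omega)
  rw [Real.rpow_one] at g5
  rw [Real.rpow_zero, mul_one] at g2
  set L := Real.log (N : ℝ) with hL
  have hL0 : 0 < L := by linarith
  have hN0 : (0 : ℝ) < N := by exact_mod_cast (by omega : 0 < N)
  have hR0 : (0 : ℝ) < R := by exact_mod_cast hR
  have h2R : 2 * R ≤ N := by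
    have : 2 * (R : ℝ) ≤ N := by
      calc 2 * (R : ℝ) ≤ (N : ℝ) ^ (1 - α) * (N : ℝ) ^ α := by gcongr
        _ = N := by rw [← Real.rpow_add hN0]; simp
    exact_mod_cast this
  rw [← hc] at h
  have h1 : ∑ k ∈ G, (1 : ℝ) ^ nuD (k + 1) / (Nat.totient (k + 1) : ℝ) ≤
      G.card * (Ct * Real.log L / R) := by
    calc _ ≤ ∑ _k ∈ G, Ct * Real.log L / R := by
          refine sum_le_sum fun k hk => ?_
          rw [one_pow]
          exact inv_tot (hCt N g5) hR h2R (hG hk)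
      _ = _ := by rw [sum_const, nsmul_eq_mul]
  have h2 : 1 / 2 * L ^ (1 - U) ≤ c * (G.card * (Ct * Real.log L / R)) :=
    h.trans (mul_le_mul_of_nonneg_left h1 hc0.le)
  have h3 : (R : ℝ) * L ^ (1 - U) ≤ G.card * L ^ ε := by
    calc (R : ℝ) * L ^ (1 - U) = 2 * R * (1 / 2 * L ^ (1 - U)) := by ring
      _ ≤ 2 * R * (c * (G.card * (Ct * Real.log L / R))) := by gcongr
      _ = G.card * (2 * c * Ct * Real.log L) := by field_simp
      _ ≤ _ := by gcongr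
  have h4 : L ^ (U - 1 + ε) = L ^ ε / L ^ (1 - U) := by
    rw [← Real.rpow_sub hL0]; congr 1; ring
  rw [h4, div_div_eq_mul_div, div_le_iff₀ (by positivity)]
  exact h3

/-- weights `κ^ν(d)`: the exponent `(1 + 1/n) U + C` -/
theorem needs_wt (κ : ℝ) (hκ : 1 ≤ κ) (n : ℕ) (hn : 1 ≤ n) : ∃ c : ℝ, 0 ≤ c ∧ ∀ α U : ℝ, α < 1 →
    NeedsMany κ α U ((1 + 1 / n) * U + c) := by
  have hκ0 : 0 ≤ κ := by linarith
  obtain ⟨e, he⟩ := sum_log (κ ^ (n + 1)) (one_le_pow₀ hκ)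
  have hn0 : (0 : ℝ) < n := by exact_mod_cast hn
  refine ⟨(e + 1) / n, by positivity, fun α U hα => ?_⟩
  obtain ⟨Ct, hCt1, hCt⟩ := tot_loglog
  obtain ⟨c, hc⟩ : ∃ c : ℝ, c = 66 / (1 - (1 + α) / 2) + 10 := ⟨_, rfl⟩
  have hc0 : 0 < c := by
    rw [hc]
    have : 0 < 1 - (1 + α) / 2 := by linarith
    positivity
  obtain ⟨n1, hn1⟩ := ev_loglog 1 Ct one_pos
  obtain ⟨n2, hn2⟩ := ev_rpow 0 (1 - α) 2 (by linarith)
  obtain ⟨n3, hn3⟩ := ev_logpow 1 ((2 * c) ^ (n + 1)) one_pos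
  obtain ⟨n5, hn5⟩ := ev_logpow 1 3 one_pos
  refine ⟨n1 + n2 + n3 + n5 + 8, fun N hN R hR hRN G hG h => ?_⟩
  have g1 := hn1 N (by omega)
  have g2 := hn2 N (by omega)
  have g3 := hn3 N (by omega)
  have g5 := hn5 N (by omega)
  rw [Real.rpow_one] at g5 g1 g3
  rw [Real.rpow_zero, mul_one] at g2
  have g6 := he N (by omega)
  set L := Real.log (N : ℝ) with hL
  have hL0 : 0 < L := by linarith
  have hL1 : 1 ≤ L := by linarith
  have hN0 : (0 : ℝ) < N := by exact_mod_cast (by omega : 0 < N)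
  have hR0 : (0 : ℝ) < R := by exact_mod_cast hR
  have h2R : 2 * R ≤ N := by
    have : 2 * (R : ℝ) ≤ N := by
      calc 2 * (R : ℝ) ≤ (N : ℝ) ^ (1 - α) * (N : ℝ) ^ α := by gcongr
        _ = N := by rw [← Real.rpow_add hN0]; simp
    exact_mod_cast this
  rw [← hc] at h
  -- Hölder
  have h1 := pow_sum_le_card_mul_sum_pow (s := G)
    (f := fun k => κ ^ nuD (k + 1) / (Nat.totient (k + 1) : ℝ)) (fun k _ => by positivity) n
  have h2 : ∑ k ∈ G, (κ ^ nuD (k + 1) / (Nat.totient (k + 1) : ℝ)) ^ (n + 1) ≤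
      (L / R) ^ n * L ^ e := by
    calc ∑ k ∈ G, (κ ^ nuD (k + 1) / (Nat.totient (k + 1) : ℝ)) ^ (n + 1) ≤
        ∑ k ∈ G, (L / R) ^ n * ((κ ^ (n + 1)) ^ nuD (k + 1) / (Nat.totient (k + 1) : ℝ)) := by
          refine sum_le_sum fun k hk => ?_
          have e1 : 1 / (Nat.totient (k + 1) : ℝ) ≤ L / R :=
            (inv_tot (hCt N g5) hR h2R (hG hk)).trans (by gcongr)
          calc (κ ^ nuD (k + 1) / (Nat.totient (k + 1) : ℝ)) ^ (n + 1) =
              (1 / (Nat.totient (k + 1) : ℝ)) ^ n *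
                ((κ ^ (n + 1)) ^ nuD (k + 1) / (Nat.totient (k + 1) : ℝ)) := by
                rw [div_pow, ← pow_mul, ← pow_mul, mul_comm (nuD (k + 1)), div_pow, one_pow,
                  pow_succ (Nat.totient (k + 1) : ℝ) n]
                field_simp
            _ ≤ _ := by gcongr
      _ = (L / R) ^ n * ∑ k ∈ G, (κ ^ (n + 1)) ^ nuD (k + 1) / (Nat.totient (k + 1) : ℝ) := by
          rw [mul_sum]
      _ ≤ (L / R) ^ n * ∑ k ∈ range N, (κ ^ (n + 1)) ^ nuD (k + 1) / (Nat.totient (k + 1) : ℝ) := by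
          apply mul_le_mul_of_nonneg_left _ (by positivity)
          refine sum_le_sum_of_subset_of_nonneg ?_ fun k _ _ => by positivity
          intro k hk
          have := mem_Ico.1 (hG hk)
          rw [mem_range]
          omega
      _ = (L / R) ^ n * ∑ d ∈ Icc 1 N, (κ ^ (n + 1)) ^ nuD d / (Nat.totient d : ℝ) := by
          rw [← Pool.Agent.Q93.EHC.sum_shift
            (fun d => (κ ^ (n + 1)) ^ nuD d / (Nat.totient d : ℝ))]
      _ ≤ (L / R) ^ n * L ^ e := mul_le_mul_of_nonneg_left g6 (by positivity)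
  have h3 : (L ^ (1 - U)) ^ (n + 1) ≤ (2 * c) ^ (n + 1) * ((G.card : ℝ) ^ n * ((L / R) ^ n * L ^ e)) := by
    have e1 : L ^ (1 - U) ≤ (2 * c) * ∑ k ∈ G, κ ^ nuD (k + 1) / (Nat.totient (k + 1) : ℝ) := by
      linarith
    calc (L ^ (1 - U)) ^ (n + 1) ≤
        ((2 * c) * ∑ k ∈ G, κ ^ nuD (k + 1) / (Nat.totient (k + 1) : ℝ)) ^ (n + 1) :=
          pow_le_pow_left₀ (by positivity) e1 _
      _ = (2 * c) ^ (n + 1) * (∑ k ∈ G, κ ^ nuD (k + 1) / (Nat.totient (k + 1) : ℝ)) ^ (n + 1) :=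
          mul_pow _ _ _
      _ ≤ _ := mul_le_mul_of_nonneg_left (h1.trans (mul_le_mul_of_nonneg_left h2 (by positivity)))
          (by positivity)
  have h4 : (R : ℝ) ^ n * (L ^ (1 - U)) ^ (n + 1) ≤ (G.card : ℝ) ^ n * L ^ (n + e + 1) := by
    calc (R : ℝ) ^ n * (L ^ (1 - U)) ^ (n + 1) ≤
        (R : ℝ) ^ n * (L * ((G.card : ℝ) ^ n * ((L / R) ^ n * L ^ e))) := by
          apply mul_le_mul_of_nonneg_left _ (by positivity)
          exact h3.trans (mul_le_mul_of_nonneg_right g3 (by positivity))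
      _ = _ := by
          rw [div_pow, pow_add, pow_add, pow_one]
          field_simp
  have h5 : ((R : ℝ) / L ^ ((1 + 1 / (n : ℝ)) * U + (e + 1) / n)) ^ n ≤ (G.card : ℝ) ^ n := by
    rw [div_pow, ← Real.rpow_natCast (L ^ ((1 + 1 / (n : ℝ)) * U + (e + 1) / n)),
      ← Real.rpow_mul hL0.le, div_le_iff₀ (by positivity)]
    have e1 : ((1 + 1 / (n : ℝ)) * U + (e + 1) / n) * n = (n + 1) * U + (e + 1) := by
      field_simp
    rw [e1]
    have e2 : (L ^ (1 - U)) ^ (n + 1) = L ^ ((1 - U) * (n + 1)) := by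
      rw [← Real.rpow_natCast, ← Real.rpow_mul hL0.le]
      congr 1
      push_cast
      ring
    have e3 : L ^ (n + e + 1) = L ^ ((n : ℝ) + e + 1) := by
      rw [← Real.rpow_natCast]
      congr 1
      push_cast
      ring
    rw [e2, e3] at h4
    have e4 : L ^ (((n : ℝ) + 1) * U + (e + 1)) * L ^ ((1 - U) * (n + 1)) =
        L ^ ((n : ℝ) + e + 2) := by
      rw [← Real.rpow_add hL0]; congr 1; ring
    have e5 : 0 < L ^ ((1 - U) * ((n : ℝ) + 1)) := by positivity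
    have e6 : L ^ ((n : ℝ) + e + 1) ≤ L ^ ((n : ℝ) + e + 2) :=
      Real.rpow_le_rpow_of_exponent_le hL1 (by linarith)
    have e7 : (R : ℝ) ^ n * L ^ ((1 - U) * ((n : ℝ) + 1)) ≤
        (G.card : ℝ) ^ n * L ^ (((n : ℝ) + 1) * U + (e + 1)) * L ^ ((1 - U) * ((n : ℝ) + 1)) := by
      rw [mul_assoc, e4]
      exact h4.trans (mul_le_mul_of_nonneg_left e6 (by positivity))
    exact le_of_mul_le_mul_right e7 e5
  exact (pow_le_pow_iff_left₀ (by positivity) (by positivity) (by omega)).1 h5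

end Pool.Agent.Q75.WT
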