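import Pool.Agent.Q75.WT.Eq

/-!
# From blocks of moduli to the sum `S_{α,C₁}(N)`
-/

set_option autoImplicit false

namespace Pool.Agent.Q75.WT

open Finset Filter
open Pool.Agent.H300R2.WEH
open Pool.Agent.Results.MP_188a10_nt.WeightedExceptional (EMax EOff nuD EMax_eq log_ge_one nuD_le)

/-- `E(N, d)`: the maximum of `|π(y; d, l) - li(y)/φ(d)|` over `2 ≤ y ≤ N` and the reduced classes -/
noncomputable def E (N d : ℕ) : ℝ := ⨆ l : (ZMod d)ˣ, EMax N d l

/-- `S_{α,C₁}(N)` -/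
noncomputable def S (α C₁ : ℝ) (N : ℕ) : ℝ :=
  ∑ d ∈ (Icc 1 N).filter (fun d : ℕ => (d : ℝ) < (N : ℝ) ^ α / Real.log N ^ C₁ ∧ Squarefree d),
    (3 : ℝ) ^ nuD d * E N d

/-- the squarefree moduli -/
def Sq : Set ℕ := {d | Squarefree d}

theorem E_nonneg (N d : ℕ) : 0 ≤ E N d :=
  Real.iSup_nonneg fun _ => Pool.Agent.Q93.WL.EMax_nonneg _ _ _

theorem S_nonneg (α C₁ : ℝ) (N : ℕ) : 0 ≤ S α C₁ N :=
  sum_nonneg fun d _ => mul_nonneg (by positivity) (E_nonneg N d)

theorem le_E (N k : ℕ) (l : (ZMod (k + 1))ˣ) : EMax N (k + 1) l ≤ E N (k + 1) := by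
  unfold E
  exact le_ciSup (f := fun l : (ZMod (k + 1))ˣ => EMax N (k + 1) l)
    (Set.finite_range _).bddAbove l

theorem exists_E (N k : ℕ) : ∃ l : (ZMod (k + 1))ˣ, E N (k + 1) = EMax N (k + 1) l := by
  obtain ⟨l, hl⟩ := Finite.exists_max (fun l : (ZMod (k + 1))ˣ => EMax N (k + 1) l)
  exact ⟨l, le_antisymm (ciSup_le hl) (le_E N k l)⟩

theorem ins_le (s : Finset ℕ) (a : ℕ) (f : ℕ → ℝ) (hf : ∀ n, 0 ≤ f n) :
    ∑ d ∈ insert a s, f d ≤ f a + ∑ d ∈ s, f d := by
  by_cases ha : a ∈ s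
  · rw [insert_eq_of_mem ha]
    linarith [hf a]
  · rw [sum_insert ha]

theorem biU_le (s : Finset ℕ) (t : ℕ → Finset ℕ) (f : ℕ → ℝ) (hf : ∀ n, 0 ≤ f n) :
    ∑ d ∈ s.biUnion t, f d ≤ ∑ j ∈ s, ∑ d ∈ t j, f d := by
  classical
  induction s using Finset.induction_on with
  | empty => simp
  | insert a s ha ih =>
    rw [sum_insert ha, biUnion_insert]
    have h1 : ∑ d ∈ t a ∪ s.biUnion t, f d ≤ ∑ d ∈ t a, f d + ∑ d ∈ s.biUnion t, f d := by
      have h2 := sum_union_inter (s₁ := t a) (s₂ := s.biUnion t) (f := f)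
      have h3 : 0 ≤ ∑ d ∈ t a ∩ s.biUnion t, f d := sum_nonneg fun d _ => hf d
      linarith
    linarith

/-- saving `log^(a+1)` in all blocks gives saving `log^a` in the sum -/
theorem S_of_lev (α : ℝ) (a : ℕ) (h : Lev 3 Sq α (a + 1)) (C₁ : ℝ) (hC₁ : 0 < C₁) :
    ∃ K : ℝ, ∀ N : ℕ, 3 ≤ N → S α C₁ N ≤ K * (N / Real.log N ^ a) := by
  obtain ⟨N₀, hN₀⟩ := h
  obtain ⟨C0, hC00, hC0⟩ := Pool.Agent.Q93.WL.small 3 (by norm_num) a 1
  obtain ⟨M, hM⟩ : ∃ M, M = N₀ + 3 := ⟨_, rfl⟩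
  have hterm : ∀ x : ℕ, 0 ≤ S α C₁ x / (x / Real.log x ^ a) := by
    intro x
    have h1 : 0 ≤ Real.log x := Real.log_natCast_nonneg x
    exact div_nonneg (S_nonneg _ _ _) (by positivity)
  refine ⟨(∑ x ∈ range M, S α C₁ x / (x / Real.log x ^ a)) + (C0 + 6), fun N hN => ?_⟩
  have hsum0 : 0 ≤ ∑ x ∈ range M, S α C₁ x / (x / Real.log x ^ a) :=
    sum_nonneg fun x _ => hterm x
  have hN0 : (0 : ℝ) < N := by exact_mod_cast (by omega : 0 < N)
  have hL1 := log_ge_one hN
  set L := Real.log (N : ℝ) with hL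
  have hL0 : 0 < L := by linarith
  have hpos : 0 < (N : ℝ) / L ^ a := by positivity
  rcases lt_or_ge N M with hNM | hNM
  · have h1 := single_le_sum (f := fun x : ℕ => S α C₁ x / (x / Real.log x ^ a))
      (fun y _ => hterm y) (mem_range.2 hNM)
    rw [div_le_iff₀ hpos] at h1
    nlinarith
  · choose m hm using fun k => exists_E N k
    -- the blocks
    have hblk : ∀ j : ℕ, (2 : ℝ) ^ j ≤ (N : ℝ) ^ α →
        ∑ k ∈ Blk Sq (2 ^ j), (3 : ℝ) ^ nuD (k + 1) * E N (k + 1) ≤ N / L ^ (a + 1) := by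
      intro j hj
      have h1 := hN₀ N (by omega) (2 ^ j) Nat.one_le_two_pow (by push_cast; exact hj)
        (fun k => m k)
      have h2 : F 3 Sq N (2 ^ j) (fun k => m k) =
          ∑ k ∈ Blk Sq (2 ^ j), (3 : ℝ) ^ nuD (k + 1) * E N (k + 1) := by
        unfold F
        rw [← sum_coe_sort (Blk Sq (2 ^ j)) (fun k => (3 : ℝ) ^ nuD (k + 1) * E N (k + 1))]
        exact sum_congr rfl fun k _ => by rw [hm]
      rw [h2] at h1
      refine h1.trans (le_of_eq ?_)
      congr 1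
      rw [← Real.rpow_natCast]
      push_cast
      rfl
    have hone : (3 : ℝ) ^ nuD (0 + 1) * E N (0 + 1) ≤ C0 * (N / L ^ a) := by
      have h1 := hC0 N hN m
      rw [sum_range_one, ← hm] at h1
      exact h1
    -- the cover
    have hcover : S α C₁ N ≤ (3 : ℝ) ^ nuD (0 + 1) * E N (0 + 1) +
        ∑ j ∈ (range (Nat.log 2 N + 1)).filter (fun j : ℕ => (2 : ℝ) ^ j ≤ (N : ℝ) ^ α),
          ∑ k ∈ Blk Sq (2 ^ j), (3 : ℝ) ^ nuD (k + 1) * E N (k + 1) := by
      classical
      have e1 : ∀ d ∈ (Icc 1 N).filter (fun d : ℕ => (d : ℝ) < (N : ℝ) ^ α / Real.log N ^ C₁ ∧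
          Squarefree d), d ∈ insert 1 (((range (Nat.log 2 N + 1)).filter
            (fun j : ℕ => (2 : ℝ) ^ j ≤ (N : ℝ) ^ α)).biUnion
              (fun j => (Blk Sq (2 ^ j)).image (fun k => k + 1))) := by
        intro d hd
        rw [mem_filter, mem_Icc] at hd
        obtain ⟨⟨hd1, hdN⟩, hd2, hd3⟩ := hd
        rw [mem_insert]
        rcases Nat.eq_or_lt_of_le hd1 with h1 | h1
        · exact Or.inl h1.symm
        · right
          obtain ⟨k, rfl⟩ : ∃ k, d = k + 1 := ⟨d - 1, by omega⟩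
          have hk0 : k ≠ 0 := by omega
          have e2 := Nat.pow_log_le_self 2 hk0
          have e3 := Nat.lt_pow_succ_log_self (b := 2) (by norm_num) k
          rw [mem_biUnion]
          refine ⟨Nat.log 2 k, ?_, ?_⟩
          · rw [mem_filter, mem_range]
            refine ⟨?_, ?_⟩
            · have := Nat.log_mono_right (b := 2) (show k ≤ N by omega)
              omega
            · have e4 : (2 : ℝ) ^ Nat.log 2 k ≤ k := by exact_mod_cast e2
              have e5 : (N : ℝ) ^ α / L ^ C₁ ≤ (N : ℝ) ^ α :=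
                div_le_self (by positivity) (Real.one_le_rpow hL1 hC₁.le)
              push_cast at hd2
              linarith
          · rw [mem_image]
            refine ⟨k, ?_, rfl⟩
            unfold Blk
            rw [mem_filter, mem_Ico]
            refine ⟨⟨e2, ?_⟩, hd3⟩
            rw [pow_succ] at e3
            omega
      have e6 : S α C₁ N ≤ ∑ d ∈ insert 1 (((range (Nat.log 2 N + 1)).filter
            (fun j : ℕ => (2 : ℝ) ^ j ≤ (N : ℝ) ^ α)).biUnion
              (fun j => (Blk Sq (2 ^ j)).image (fun k => k + 1))), (3 : ℝ) ^ nuD d * E N d := by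
        unfold S
        exact sum_le_sum_of_subset_of_nonneg e1 fun d _ _ =>
          mul_nonneg (by positivity) (E_nonneg N d)
      refine e6.trans ?_
      refine (ins_le _ 1 (fun d : ℕ => (3 : ℝ) ^ nuD d * E N d)
        (fun d => mul_nonneg (by positivity) (E_nonneg N d))).trans ?_
      refine add_le_add (le_of_eq (by rw [zero_add])) ?_
      refine (biU_le _ _ (fun d : ℕ => (3 : ℝ) ^ nuD d * E N d)
        (fun d => mul_nonneg (by positivity) (E_nonneg N d))).trans ?_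
      refine sum_le_sum fun j _ => ?_
      rw [sum_image fun x _ y _ hxy => by omega]
    have hcount : ((((range (Nat.log 2 N + 1)).filter
        (fun j : ℕ => (2 : ℝ) ^ j ≤ (N : ℝ) ^ α)).card : ℕ) : ℝ) ≤ 6 * L := by
      have h1 : ((range (Nat.log 2 N + 1)).filter
        (fun j : ℕ => (2 : ℝ) ^ j ≤ (N : ℝ) ^ α)).card ≤ Nat.log 2 N + 1 := by
        refine (card_filter_le _ _).trans (le_of_eq (card_range _))
      have h2 : ((Nat.log 2 N : ℕ) : ℝ) * Real.log 2 ≤ L := by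
        have h3 := Nat.pow_log_le_self 2 (show N ≠ 0 by omega)
        have h4 : ((2 ^ Nat.log 2 N : ℕ) : ℝ) ≤ N := by exact_mod_cast h3
        have h5 := Real.log_le_log (by positivity) h4
        push_cast at h5
        rw [Real.log_pow] at h5
        exact h5
      have h6 := Real.log_two_gt_d9
      have h7 : (0 : ℝ) ≤ ((Nat.log 2 N : ℕ) : ℝ) := Nat.cast_nonneg _
      have h8 : ((((range (Nat.log 2 N + 1)).filter
        (fun j : ℕ => (2 : ℝ) ^ j ≤ (N : ℝ) ^ α)).card : ℕ) : ℝ) ≤ (Nat.log 2 N : ℕ) + 1 := by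
        exact_mod_cast h1
      nlinarith
    calc S α C₁ N ≤ C0 * (N / L ^ a) + ∑ j ∈ (range (Nat.log 2 N + 1)).filter
          (fun j : ℕ => (2 : ℝ) ^ j ≤ (N : ℝ) ^ α), (N : ℝ) / L ^ (a + 1) := by
          refine hcover.trans (add_le_add hone (sum_le_sum fun j hj => hblk j ?_))
          rw [mem_filter] at hj
          exact hj.2
      _ ≤ C0 * (N / L ^ a) + 6 * L * (N / L ^ (a + 1)) := by
          rw [sum_const, nsmul_eq_mul]
          gcongr
      _ = (C0 + 6) * (N / L ^ a) := by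
          rw [pow_succ]
          field_simp
      _ ≤ _ := by
          apply mul_le_mul_of_nonneg_right _ hpos.le
          linarith

/-- the sum bounds the blocks of slightly lower level -/
theorem lev_of_S (α C₁ K A : ℝ) (a : ℕ)
    (h : ∀ N : ℕ, 3 ≤ N → S α C₁ N ≤ K * (N / Real.log N ^ a)) (α' : ℝ) (hα' : α' < α)
    (hα1 : α' < 1) (hA : A < a) : Lev 3 Sq α' A := by
  obtain ⟨n1, hn1⟩ := ev_rpow C₁ (α - α') 3 (by linarith)
  obtain ⟨n2, hn2⟩ := ev_rpow 0 (1 - α') 2 (by linarith)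
  obtain ⟨n3, hn3⟩ := ev_logpow (a - A) K (by linarith)
  refine ⟨n1 + n2 + n3 + 3, fun N hN R hR hRN c => ?_⟩
  have g1 := hn1 N (by omega)
  have g2 := hn2 N (by omega)
  have g3 := hn3 N (by omega)
  rw [Real.rpow_zero, mul_one] at g2
  have hN0 : (0 : ℝ) < N := by exact_mod_cast (by omega : 0 < N)
  have hL1 := log_ge_one (x := N) (by omega)
  have hS := h N (by omega)
  set L := Real.log (N : ℝ) with hL
  have hL0 : 0 < L := by linarith
  have h2R : 2 * R ≤ N := by
    have : 2 * (R : ℝ) ≤ N := by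
      calc 2 * (R : ℝ) ≤ (N : ℝ) ^ (1 - α') * (N : ℝ) ^ α' := by gcongr
        _ = N := by rw [← Real.rpow_add hN0]; simp
    exact_mod_cast this
  have h1 : F 3 Sq N R c ≤ S α C₁ N := by
    classical
    calc F 3 Sq N R c ≤ ∑ k : Blk Sq R, (3 : ℝ) ^ nuD ((k : ℕ) + 1) * E N ((k : ℕ) + 1) := by
          unfold F
          exact sum_le_sum fun k _ => mul_le_mul_of_nonneg_left (le_E N k _) (by positivity)
      _ = ∑ k ∈ Blk Sq R, (3 : ℝ) ^ nuD (k + 1) * E N (k + 1) :=
          sum_coe_sort (Blk Sq R) (fun k => (3 : ℝ) ^ nuD (k + 1) * E N (k + 1))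
      _ = ∑ d ∈ (Blk Sq R).image (fun k => k + 1), (3 : ℝ) ^ nuD d * E N d := by
          rw [sum_image fun x _ y _ hxy => by omega]
      _ ≤ S α C₁ N := by
          unfold S
          refine sum_le_sum_of_subset_of_nonneg ?_ fun d _ _ =>
            mul_nonneg (by positivity) (E_nonneg N d)
          intro d hd
          rw [mem_image] at hd
          obtain ⟨k, hk, rfl⟩ := hd
          have hk1 := mem_Ico.1 (Blk_sub Sq R hk)
          have hk2 : Squarefree (k + 1) := by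
            unfold Blk at hk
            exact (mem_filter.1 hk).2
          rw [mem_filter, mem_Icc]
          refine ⟨⟨by omega, by omega⟩, ?_, hk2⟩
          rw [lt_div_iff₀ (by positivity)]
          have e1 : (((k + 1 : ℕ) : ℕ) : ℝ) ≤ 2 * (N : ℝ) ^ α' := by
            have : ((k + 1 : ℕ) : ℝ) ≤ 2 * R := by exact_mod_cast (by omega : k + 1 ≤ 2 * R)
            exact this.trans (by gcongr)
          calc (((k + 1 : ℕ) : ℕ) : ℝ) * L ^ C₁ ≤ 2 * (N : ℝ) ^ α' * L ^ C₁ := by gcongr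
            _ = (N : ℝ) ^ α' * (2 * L ^ C₁) := by ring
            _ < (N : ℝ) ^ α' * (3 * L ^ C₁) := by
                have : 0 < L ^ C₁ := by positivity
                have : 0 < (N : ℝ) ^ α' := by positivity
                gcongr
                norm_num
            _ ≤ (N : ℝ) ^ α' * (N : ℝ) ^ (α - α') := by gcongr
            _ = (N : ℝ) ^ α := by rw [← Real.rpow_add hN0]; congr 1; ring
  refine h1.trans (hS.trans ?_)
  have e2 : L ^ a = L ^ (a - A) * L ^ A := by
    rw [← Real.rpow_natCast, ← Real.rpow_add hL0]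
    congr 1
    ring
  rw [e2]
  have e3 : 0 < L ^ (a - A) := by positivity
  have e4 : 0 < L ^ A := by positivity
  calc K * ((N : ℝ) / (L ^ (a - A) * L ^ A)) = K / L ^ (a - A) * (N / L ^ A) := by field_simp
    _ ≤ 1 * (N / L ^ A) := by
        apply mul_le_mul_of_nonneg_right _ (by positivity)
        rw [div_le_one e3]
        exact g3
    _ = _ := one_mul _

/-- larger weights give smaller savings -/
theorem lev_mono (κ κ' : ℝ) (hκ : 1 ≤ κ) (hκ' : κ ≤ κ') (T : Set ℕ) (α A : ℝ)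
    (h : Lev κ' T α A) : Lev κ T α A := by
  have hκ0 : 0 ≤ κ := by linarith
  obtain ⟨N₀, h⟩ := h
  refine ⟨N₀, fun N hN R hR hRN c => le_trans ?_ (h N hN R hR hRN c)⟩
  unfold F
  refine sum_le_sum fun k _ => mul_le_mul_of_nonneg_right ?_ (Pool.Agent.Q93.WL.EMax_nonneg _ _ _)
  exact pow_le_pow_left₀ hκ0 hκ' _

/-- savings of all powers of the logarithm do not depend on the weights -/
theorem lev_weights (κ : ℝ) (hκ : 1 ≤ κ) (T : Set ℕ) (α : ℝ) (hα : α < 1)
    (h : ∀ A : ℝ, Lev 1 T α A) (A : ℝ) : Lev κ T α A := by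
  have hκ0 : 0 ≤ κ := by linarith
  obtain ⟨U, hU⟩ := exists_nat_ge A
  obtain ⟨c, hc⟩ := sum_log (κ ^ 2) (one_le_pow₀ hκ)
  obtain ⟨W, hW⟩ := upWeight κ c U
  obtain ⟨N₀, h⟩ := h W
  obtain ⟨n2, hn2⟩ := ev_rpow 0 (1 - α) 2 (by linarith)
  refine ⟨N₀ + n2 + 8, fun N hN R hR hRN x => ?_⟩
  have g2 := hn2 N (by omega)
  rw [Real.rpow_zero, mul_one] at g2
  have hN0 : (0 : ℝ) < N := by exact_mod_cast (by omega : 0 < N)
  have hL1 := log_ge_one (x := N) (by omega)
  have h1 := h N (by omega) R hR hRN x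
  have hc' := hc N (by omega)
  set L := Real.log (N : ℝ) with hL
  have hL0 : 0 < L := by linarith
  have h2R : 2 * R ≤ N := by
    have : 2 * (R : ℝ) ≤ N := by
      calc 2 * (R : ℝ) ≤ (N : ℝ) ^ (1 - α) * (N : ℝ) ^ α := by gcongr
        _ = N := by rw [← Real.rpow_add hN0]; simp
    exact_mod_cast this
  have h2 := hW N (by omega) (univ : Finset (Blk T R)) (fun k => (k : ℕ) + 1)
    (fun k => EMax N ((k : ℕ) + 1) (x k)) 1 zero_le_one
    (fun k _ => ⟨Pool.Agent.Q93.WL.EMax_nonneg _ _ _, by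
      have hk := mem_Ico.1 (Blk_sub T R k.2)
      exact Pool.Agent.Q93.WL.EMax_triv2 N k (by omega) (by omega) (x k)⟩)
    (by
      rw [one_mul]
      refine le_trans ?_ hc'
      exact sum_blk_le (fun d => (κ ^ 2) ^ d.primeFactors.card / (Nat.totient d : ℝ))
        (fun d => by positivity) T R N h2R)
    (by
      rw [one_mul]
      unfold F at h1
      simp only [one_pow, one_mul] at h1
      rw [Real.rpow_natCast] at h1
      exact h1)
  rw [one_mul] at h2
  unfold F
  refine le_trans h2 ?_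
  apply div_le_div_of_nonneg_left hN0.le (by positivity)
  rw [← Real.rpow_natCast]
  exact Real.rpow_le_rpow_of_exponent_le hL1 hU

end Pool.Agent.Q75.WT
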