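import Pool.Agent.Q75.WT.Ari

/-!
# The unconditional upper bound for the number of bad choices
-/

set_option autoImplicit false

namespace Pool.Agent.Q75.WT

open Finset Filter
open Pool.Agent.H300R2.WEH
open Pool.Agent.Results.MP_188a10_nt.WeightedExceptional (EMax EOff nuD EMax_eq log_ge_one nuD_le)

open scoped Classical in
/-- the `k` for which the modulus `k + 1 ∈ (R, 2R]` belongs to `T` -/
noncomputable def Blk (T : Set ℕ) (R : ℕ) : Finset ℕ :=
  (Ico R (2 * R)).filter (fun k => k + 1 ∈ T)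

/-- one reduced class for every modulus -/
abbrev Choice (T : Set ℕ) (R : ℕ) : Type := ∀ k : Blk T R, (ZMod ((k : ℕ) + 1))ˣ

/-- the weighted sum of the maximal errors in the chosen classes -/
noncomputable def F (κ : ℝ) (T : Set ℕ) (N R : ℕ) (c : Choice T R) : ℝ :=
  ∑ k : Blk T R, κ ^ nuD ((k : ℕ) + 1) * EMax N ((k : ℕ) + 1) (c k)

open scoped Classical in
/-- proportion of the choices with `F > N / (log N)^U` -/
noncomputable def Bad (κ : ℝ) (T : Set ℕ) (N R : ℕ) (U : ℝ) : ℝ :=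
  (Fintype.card {c : Choice T R // N / Real.log N ^ U < F κ T N R c} : ℝ) /
    Fintype.card (Choice T R)

theorem Blk_sub (T : Set ℕ) (R : ℕ) : Blk T R ⊆ Ico R (2 * R) := by
  classical
  intro k hk
  unfold Blk at hk
  exact (mem_filter.1 hk).1

/-- the number of moduli which are needed for a sum of size `N / (log N)^U` -/
def NeedsMany (κ α U W : ℝ) : Prop := ∃ N₀ : ℕ, ∀ N : ℕ, N₀ ≤ N → ∀ R : ℕ, 1 ≤ R →
  (R : ℝ) ≤ (N : ℝ) ^ α → ∀ G : Finset ℕ, G ⊆ Ico R (2 * R) →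
  (1 / 2) * Real.log N ^ (1 - U) ≤ (66 / (1 - (1 + α) / 2) + 10) *
    ∑ k ∈ G, κ ^ nuD (k + 1) / (Nat.totient (k + 1) : ℝ) →
  (R : ℝ) / Real.log N ^ W ≤ G.card

theorem EOff_nonneg (N d : ℕ) (X : Finset (ZMod d)ˣ) : 0 ≤ EOff N d X :=
  Real.iSup_nonneg fun _ => Pool.Agent.Q93.WL.EMax_nonneg _ _ _

theorem Blk_range {T : Set ℕ} {R N : ℕ} (h : 2 * R ≤ N) : Blk T R ⊆ range N := by
  intro k hk
  have := mem_Ico.1 (Blk_sub T R hk)
  rw [mem_range]
  omega

theorem sum_blk_le (f : ℕ → ℝ) (hf : ∀ d, 0 ≤ f d) (T : Set ℕ) (R N : ℕ) (h : 2 * R ≤ N) :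
    ∑ k : Blk T R, f ((k : ℕ) + 1) ≤ ∑ d ∈ Icc 1 N, f d := by
  rw [sum_coe_sort (Blk T R) (fun k => f (k + 1)), ← Pool.Agent.Q93.EHC.sum_shift]
  exact sum_le_sum_of_subset_of_nonneg (Blk_range h) fun _ _ _ => hf _

theorem upper_of (κ α U W ε : ℝ) (hκ : 1 ≤ κ) (hα : α < 1) (hε : 0 < ε)
    (h : NeedsMany κ α U W) : ∃ N₀ : ℕ, ∀ N : ℕ, N₀ ≤ N → ∀ R : ℕ, 1 ≤ R →
      (R : ℝ) ≤ (N : ℝ) ^ α → ∀ T : Set ℕ,
      Bad κ T N R U ≤ Real.exp (-((R : ℝ) / Real.log N ^ (W - 1 + ε))) := by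
  obtain ⟨U', hU'⟩ := exists_nat_ge (U + 1)
  obtain ⟨B, C, H⟩ := Pool.Agent.Results.MP_188a10_nt.WeightedExceptional.result κ hκ U'
  obtain ⟨Ct, hCt1, hCt⟩ := tot_loglog
  obtain ⟨δ, hδ⟩ : ∃ δ : ℝ, δ = (1 - α) / 2 := ⟨_, rfl⟩
  have hδ0 : 0 < δ := by rw [hδ]; linarith
  obtain ⟨n0, hn0⟩ := h
  obtain ⟨n1, hn1⟩ := ev_logpow 1 (2 * C) one_pos
  obtain ⟨n2, hn2⟩ := ev_rpow 0 δ 2 hδ0
  obtain ⟨n3, hn3⟩ := ev_rpow ((B : ℝ) + W) δ (4 * Ct / δ) hδ0
  obtain ⟨n4, hn4⟩ := ev_logpow ε (2 / δ) hε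
  obtain ⟨n5, hn5⟩ := ev_logpow 1 3 one_pos
  refine ⟨n0 + n1 + n2 + n3 + n4 + n5 + 8, fun N hN R hR hRN T => ?_⟩
  have g1 := hn1 N (by omega)
  have g2 := hn2 N (by omega)
  have g3 := hn3 N (by omega)
  have g4 := hn4 N (by omega)
  have g5 := hn5 N (by omega)
  rw [Real.rpow_one] at g1 g5
  rw [Real.rpow_zero, mul_one] at g2
  set L := Real.log (N : ℝ) with hL
  have hL0 : 0 < L := by linarith
  have hL1 : 1 ≤ L := by linarith
  have hN0 : (0 : ℝ) < N := by exact_mod_cast (by omega : 0 < N)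
  have hR0 : (0 : ℝ) < R := by exact_mod_cast hR
  have h2R' : 2 * (R : ℝ) ≤ (N : ℝ) ^ ((1 + α) / 2) := by
    calc 2 * (R : ℝ) ≤ (N : ℝ) ^ δ * (N : ℝ) ^ α := by gcongr
      _ = (N : ℝ) ^ ((1 + α) / 2) := by
          rw [← Real.rpow_add hN0]; congr 1; rw [hδ]; ring
  have hN1 : (1 : ℝ) ≤ N := by exact_mod_cast (by omega : 1 ≤ N)
  have h2R'' : 2 * (R : ℝ) ≤ N := by
    refine h2R'.trans ?_
    calc (N : ℝ) ^ ((1 + α) / 2) ≤ (N : ℝ) ^ (1 : ℝ) :=
          Real.rpow_le_rpow_of_exponent_le hN1 (by linarith)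
      _ = N := Real.rpow_one _
  have h2R : 2 * R ≤ N := by exact_mod_cast h2R''
  obtain ⟨⟨X, hX, hsum⟩, -⟩ := H N (by omega)
  classical
  have hexp : ∃ W0 : ℝ, W0 = (R : ℝ) / L ^ W := ⟨_, rfl⟩
  obtain ⟨W0, hW0⟩ := hexp
  -- the bad choices hit many exceptional sets
  have hhit : ∀ c : Choice T R, N / L ^ U < F κ T N R c →
      W0 ≤ hits (A := fun k : Blk T R => (ZMod ((k : ℕ) + 1))ˣ)
        (fun k => X ((k : ℕ) + 1)) c := by
    intro c hc
    set P : Finset (Blk T R) := univ.filter (fun k => c k ∈ X ((k : ℕ) + 1)) with hP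
    set G : Finset ℕ := P.map ⟨Subtype.val, Subtype.val_injective⟩ with hG
    have hGc : (G.card : ℝ) = hits (A := fun k : Blk T R => (ZMod ((k : ℕ) + 1))ˣ)
        (fun k => X ((k : ℕ) + 1)) c := by
      rw [hG, card_map]
      unfold hits
      norm_cast
      apply congrArg
      ext k
      simp [hP]
    rw [← hGc, hW0]
    have hGsub : G ⊆ Ico R (2 * R) := by
      intro k hk
      rw [hG, Finset.mem_map] at hk
      obtain ⟨j, -, rfl⟩ := hk
      exact Blk_sub T R j.2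
    refine hn0 N (by omega) R hR hRN G hGsub ?_
    -- sum over the classes which are not exceptional
    have s1 : ∑ k ∈ univ.filter (fun k : Blk T R => ¬ c k ∈ X ((k : ℕ) + 1)),
        κ ^ nuD ((k : ℕ) + 1) * EMax N ((k : ℕ) + 1) (c k) ≤ (1 / 2) * (N / L ^ U) := by
      calc ∑ k ∈ univ.filter (fun k : Blk T R => ¬ c k ∈ X ((k : ℕ) + 1)),
          κ ^ nuD ((k : ℕ) + 1) * EMax N ((k : ℕ) + 1) (c k) ≤
          ∑ k ∈ univ.filter (fun k : Blk T R => ¬ c k ∈ X ((k : ℕ) + 1)),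
          κ ^ nuD ((k : ℕ) + 1) * EOff N ((k : ℕ) + 1) (X ((k : ℕ) + 1)) := by
            refine sum_le_sum fun k hk => ?_
            rw [mem_filter] at hk
            exact mul_le_mul_of_nonneg_left (Pool.Agent.Q93.WL.EMax_off N k _ _ hk.2)
              (by positivity)
        _ ≤ ∑ k : Blk T R, κ ^ nuD ((k : ℕ) + 1) * EOff N ((k : ℕ) + 1) (X ((k : ℕ) + 1)) :=
            sum_le_sum_of_subset_of_nonneg (subset_univ _) fun k _ _ =>
              mul_nonneg (by positivity) (EOff_nonneg _ _ _)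
        _ ≤ ∑ d ∈ Icc 1 N, κ ^ nuD d * EOff N d (X d) :=
            sum_blk_le (fun d => κ ^ nuD d * EOff N d (X d))
              (fun d => mul_nonneg (by positivity) (EOff_nonneg _ _ _)) T R N h2R
        _ ≤ C * (N / L ^ U') := hsum
        _ ≤ (1 / 2) * (N / L ^ U) := by
            have e1 : L ^ (U + 1) ≤ L ^ U' := by
              rw [← Real.rpow_natCast]
              exact Real.rpow_le_rpow_of_exponent_le hL1 hU'
            rw [Real.rpow_add hL0, Real.rpow_one] at e1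
            have e2 : 0 < L ^ U := by positivity
            rcases le_or_gt C 0 with hC | hC
            · have : C * ((N : ℝ) / L ^ U') ≤ 0 :=
                mul_nonpos_of_nonpos_of_nonneg hC (by positivity)
              have : 0 ≤ (1 / 2) * ((N : ℝ) / L ^ U) := by positivity
              linarith
            · calc C * ((N : ℝ) / L ^ U') ≤ C * (N / (L ^ U * L)) := by gcongr
                _ = C / L * (N / L ^ U) := by field_simp
                _ ≤ (1 / 2) * (N / L ^ U) := by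
                    apply mul_le_mul_of_nonneg_right _ (by positivity)
                    rw [div_le_iff₀ hL0]
                    linarith
    have s2 : F κ T N R c = ∑ k ∈ P, κ ^ nuD ((k : ℕ) + 1) * EMax N ((k : ℕ) + 1) (c k) +
        ∑ k ∈ univ.filter (fun k : Blk T R => ¬ c k ∈ X ((k : ℕ) + 1)),
          κ ^ nuD ((k : ℕ) + 1) * EMax N ((k : ℕ) + 1) (c k) := by
      unfold F
      rw [hP, sum_filter_add_sum_filter_not]
    have s3 : ∑ k ∈ P, κ ^ nuD ((k : ℕ) + 1) * EMax N ((k : ℕ) + 1) (c k) ≤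
        (66 / (1 - (1 + α) / 2) + 10) * (N / L) *
          ∑ k ∈ G, κ ^ nuD (k + 1) / (Nat.totient (k + 1) : ℝ) := by
      rw [hG, sum_map, mul_sum]
      refine sum_le_sum fun k _ => ?_
      have hk := mem_Ico.1 (Blk_sub T R k.2)
      have hk1 : (((k : ℕ) + 1 : ℕ) : ℝ) ≤ (N : ℝ) ^ ((1 + α) / 2) := by
        refine le_trans ?_ h2R'
        exact_mod_cast (by omega : (k : ℕ) + 1 ≤ 2 * R)
      have e1 := EMax_bt ((1 + α) / 2) (by linarith) N ((k : ℕ) + 1) (by omega) (by omega) hk1 (c k)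
      have hφ : (0 : ℝ) < Nat.totient ((k : ℕ) + 1) := by
        exact_mod_cast Nat.totient_pos.2 (by omega)
      calc κ ^ nuD ((k : ℕ) + 1) * EMax N ((k : ℕ) + 1) (c k) ≤ κ ^ nuD ((k : ℕ) + 1) *
          ((66 / (1 - (1 + α) / 2) + 10) * (N / ((Nat.totient ((k : ℕ) + 1) : ℝ) * L))) :=
            mul_le_mul_of_nonneg_left e1 (by positivity)
        _ = _ := by
            simp only [Function.Embedding.coeFn_mk]
            field_simp
    have s4 : (1 / 2) * (N / L ^ U) ≤ (66 / (1 - (1 + α) / 2) + 10) * (N / L) *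
          ∑ k ∈ G, κ ^ nuD (k + 1) / (Nat.totient (k + 1) : ℝ) := by linarith
    have e2 : (1 / 2) * L ^ (1 - U) * (N / L) = (1 / 2) * (N / L ^ U) := by
      rw [Real.rpow_sub hL0, Real.rpow_one]
      field_simp
    have e3 : (1 / 2) * L ^ (1 - U) * (N / L) ≤ ((66 / (1 - (1 + α) / 2) + 10) *
          ∑ k ∈ G, κ ^ nuD (k + 1) / (Nat.totient (k + 1) : ℝ)) * (N / L) := by
      rw [e2]
      linarith
    exact le_of_mul_le_mul_right e3 (by positivity)
  -- the exponential moment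
  have hs1 : (1 : ℝ) ≤ (N : ℝ) ^ δ := Real.one_le_rpow hN1 hδ0.le
  have hfew := few (A := fun k : Blk T R => (ZMod ((k : ℕ) + 1))ˣ) (fun k => X ((k : ℕ) + 1))
    ((N : ℝ) ^ δ) hs1 W0 (fun c => N / L ^ U < F κ T N R c) hhit
  have hbad : Bad κ T N R U = (Fintype.card {c : Choice T R // N / L ^ U < F κ T N R c} : ℝ) /
      Fintype.card (Choice T R) := rfl
  rw [hbad]
  refine hfew.trans (Real.exp_le_exp.2 ?_)
  rw [Real.log_rpow hN0]
  have hΛ : ∑ k : Blk T R, ((X ((k : ℕ) + 1)).card : ℝ) / Fintype.card (ZMod ((k : ℕ) + 1))ˣ ≤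
      2 * Ct * (R : ℝ) ^ 2 * L ^ (B + 1) / N := by
    have hterm : ∀ k : Blk T R, ((X ((k : ℕ) + 1)).card : ℝ) / Fintype.card (ZMod ((k : ℕ) + 1))ˣ ≤
        2 * Ct * R * L ^ (B + 1) / N := by
      intro k
      have hk := mem_Ico.1 (Blk_sub T R k.2)
      rw [ZMod.card_units_eq_totient]
      obtain ⟨d, hd⟩ : ∃ d : ℕ, d = (k : ℕ) + 1 := ⟨_, rfl⟩
      rw [← hd]
      have hd1 : 1 ≤ d := by omega
      have hdN : d ≤ N := by omega
      have hd2 : (d : ℝ) ≤ 2 * R := by exact_mod_cast (by omega : d ≤ 2 * R)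
      have hd0 : (0 : ℝ) < d := by exact_mod_cast hd1
      have hφ : (0 : ℝ) < Nat.totient d := by exact_mod_cast Nat.totient_pos.2 hd1
      have e1 := hX d hd1
      have e2 := hCt N g5 d hd1 hdN
      have e3 : Real.log L ≤ L := (Real.log_le_sub_one_of_pos hL0).trans (by linarith)
      calc ((X d).card : ℝ) / (Nat.totient d : ℝ) ≤ ((d : ℝ) ^ 2 * L ^ B / N) / Nat.totient d := by
            gcongr
        _ = ((d : ℝ) / Nat.totient d) * d * (L ^ B / N) := by ring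
        _ ≤ (Ct * Real.log L) * (2 * R) * (L ^ B / N) := by
            have e4 : 0 ≤ Real.log L := Real.log_nonneg hL1
            have e5 : 0 ≤ Ct * Real.log L := mul_nonneg (by linarith) e4
            exact mul_le_mul_of_nonneg_right (mul_le_mul e2 hd2 hd0.le e5) (by positivity)
        _ ≤ (Ct * L) * (2 * R) * (L ^ B / N) := by gcongr
        _ = _ := by ring
    calc _ ≤ ∑ _k : Blk T R, 2 * Ct * R * L ^ (B + 1) / N := sum_le_sum fun k _ => hterm k
      _ = ((Blk T R).card : ℝ) * (2 * Ct * R * L ^ (B + 1) / N) := by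
          rw [sum_const, nsmul_eq_mul, card_univ, Fintype.card_coe]
      _ ≤ (R : ℝ) * (2 * Ct * R * L ^ (B + 1) / N) := by
          have : (Blk T R).card ≤ R := by
            calc (Blk T R).card ≤ (Ico R (2 * R)).card := card_le_card (Blk_sub T R)
              _ = R := by rw [Nat.card_Ico]; omega
          have h' : ((Blk T R).card : ℝ) ≤ R := by exact_mod_cast this
          gcongr
      _ = _ := by ring
  have hΛ0 : 0 ≤ ∑ k : Blk T R, ((X ((k : ℕ) + 1)).card : ℝ) /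
      Fintype.card (ZMod ((k : ℕ) + 1))ˣ := sum_nonneg fun k _ => by positivity
  have t1 : ((N : ℝ) ^ δ - 1) * ∑ k : Blk T R, ((X ((k : ℕ) + 1)).card : ℝ) /
      Fintype.card (ZMod ((k : ℕ) + 1))ˣ ≤ (R : ℝ) * (δ / 2 * L ^ (1 - W)) := by
    calc _ ≤ (N : ℝ) ^ δ * (2 * Ct * (R : ℝ) ^ 2 * L ^ (B + 1) / N) := by
          apply mul_le_mul (by linarith) hΛ hΛ0 (by positivity)
      _ = (R : ℝ) * (2 * Ct * L ^ (B + 1) * ((N : ℝ) ^ δ * R / N)) := by ring
      _ ≤ (R : ℝ) * (2 * Ct * L ^ (B + 1) * ((N : ℝ) ^ δ * (N : ℝ) ^ α / N)) := by gcongr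
      _ = (R : ℝ) * (2 * Ct * L ^ (B + 1) / (N : ℝ) ^ δ) := by
          have e1 : (N : ℝ) ^ δ * (N : ℝ) ^ α / N = 1 / (N : ℝ) ^ δ := by
            rw [eq_div_iff (by positivity), div_mul_eq_mul_div, div_eq_one_iff_eq hN0.ne',
              ← Real.rpow_add hN0, ← Real.rpow_add hN0]
            rw [show δ + α + δ = 1 by rw [hδ]; ring, Real.rpow_one]
          rw [e1]
          ring
      _ ≤ (R : ℝ) * (δ / 2 * L ^ (1 - W)) := by
          apply mul_le_mul_of_nonneg_left _ hR0.le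
          rw [div_le_iff₀ (by positivity)]
          have e2 : L ^ (B + 1) = L ^ ((B : ℝ) + W) * L ^ (1 - W) := by
            rw [← Real.rpow_add hL0, ← Real.rpow_natCast]
            congr 1
            push_cast
            ring
          calc 2 * Ct * L ^ (B + 1) = δ / 2 * (4 * Ct / δ * L ^ ((B : ℝ) + W)) * L ^ (1 - W) := by
                rw [e2]
                field_simp
                ring
            _ ≤ δ / 2 * (N : ℝ) ^ δ * L ^ (1 - W) := by gcongr
            _ = _ := by ring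
  have t2 : W0 * (δ * L) = (R : ℝ) * (δ * L ^ (1 - W)) := by
    rw [hW0, Real.rpow_sub hL0, Real.rpow_one]
    field_simp
  have t3 : (R : ℝ) / L ^ (W - 1 + ε) ≤ (R : ℝ) * (δ / 2 * L ^ (1 - W)) := by
    rw [div_eq_mul_inv, ← Real.rpow_neg hL0.le]
    apply mul_le_mul_of_nonneg_left _ hR0.le
    have e1 : L ^ (1 - W) = L ^ (-(W - 1 + ε)) * L ^ ε := by
      rw [← Real.rpow_add hL0]; congr 1; ring
    rw [e1]
    have e2 : 0 < L ^ (-(W - 1 + ε)) := by positivity
    have e3 : 1 ≤ δ / 2 * L ^ ε := by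
      calc (1 : ℝ) = δ / 2 * (2 / δ) := by field_simp
        _ ≤ _ := by gcongr
    nlinarith
  linarith

end Pool.Agent.Q75.WT
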